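import Mathlib

open Filter Topology Set MeasureTheory

namespace Pool.Agent.Results.MP_868b62_an.Expand

/-- Approximate lower limit of `g h` as `h → 0⁺`. -/
noncomputable def apLiminf (g : ℝ → ℝ) : EReal :=
  sSup ((fun t : ℝ => (t : EReal)) '' {t : ℝ | Tendsto
    (fun r : ℝ => (volume {h ∈ Ioo 0 r | g h < t}).toReal / r) (𝓝[>] 0) (𝓝 0)})

/-- Positions of the copied blocks. -/
def m (p : ℕ) : ℕ := (p + 3) ^ 2 + p + 2

/-- The copied block of binary digits. -/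
noncomputable def blk (p : ℕ) (x : ℝ) : ℤ := ⌊2 ^ m p * 2 ^ p * x⌋ % 2 ^ p

/-- The digit of the code. -/
noncomputable def u (p : ℕ) (x : ℝ) : ℤ := 2 * blk p x + ⌊2 ^ p * x⌋ % 2

/-- The weights. -/
noncomputable def w (p : ℕ) : ℝ := (1 / 2) ^ ((p + 2) ^ 2)

/-- The map. -/
noncomputable def f (x : ℝ) : ℝ := 1 / 4 + ∑' p, w p * u p x

theorem blk_bd (p : ℕ) (x : ℝ) : 0 ≤ blk p x ∧ blk p x < 2 ^ p :=
  ⟨Int.emod_nonneg _ (by positivity), Int.emod_lt_of_pos _ (by positivity)⟩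

theorem u_bd (p : ℕ) (x : ℝ) : (0 : ℝ) ≤ u p x ∧ (u p x : ℝ) ≤ 2 ^ (p + 1) := by
  have h := blk_bd p x
  have h1 : 0 ≤ u p x ∧ u p x ≤ 2 ^ (p + 1) := by rw [u, pow_succ]; omega
  exact ⟨by exact_mod_cast h1.1, by exact_mod_cast h1.2⟩

theorem w_pos (p : ℕ) : 0 < w p := by rw [w]; positivity

theorem w_le (q a b : ℕ) (h : a + b + (q + 1) ≤ (q + 2) ^ 2) :
    w q * 2 ^ (q + 1) ≤ (1 / 2) ^ a * (1 / 2) ^ b := by
  have h1 : w q ≤ (1 / 2) ^ (a + b + (q + 1)) := pow_le_pow_of_le_one (by norm_num) (by norm_num) h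
  have h2 : ((1 : ℝ) / 2) ^ (q + 1) * 2 ^ (q + 1) = 1 := by rw [← mul_pow]; simp
  calc w q * 2 ^ (q + 1) ≤ (1 / 2 : ℝ) ^ (a + b + (q + 1)) * 2 ^ (q + 1) := by gcongr
    _ = (1 / 2 : ℝ) ^ a * (1 / 2) ^ b := by rw [pow_add, mul_assoc, h2, mul_one, pow_add]

theorem term (p : ℕ) (x : ℝ) : ‖w p * u p x‖ ≤ (1 / 2) ^ 3 * (1 / 2) ^ p := by
  rw [Real.norm_of_nonneg (mul_nonneg (w_pos p).le (u_bd p x).1)]
  exact (mul_le_mul_of_nonneg_left (u_bd p x).2 (w_pos p).le).trans (w_le p 3 p (by nlinarith))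

theorem sm (x : ℝ) : Summable fun p => w p * u p x :=
  .of_norm_bounded (summable_geometric_two.mul_left _) fun p => term p x

theorem sep {x z : ℝ} {P : ℕ} (h : u P x ≠ u P z) : w P / 2 ≤ |f x - f z| := by
  classical
  have hex : ∃ p, u p x ≠ u p z := ⟨P, h⟩
  set p := Nat.find hex
  have h1 : f x - f z = w p * (u p x - u p z) +
      ∑' s, w (s + 1 + p) * (u (s + 1 + p) x - u (s + 1 + p) z) := by
    have hs : Summable fun p => w p * (u p x - u p z) := by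
      simpa only [mul_sub] using (sm x).sub (sm z)
    rw [f, f, add_sub_add_left_eq_sub, ← (sm x).tsum_sub (sm z)]
    simp only [← mul_sub]
    rw [← hs.sum_add_tsum_nat_add p, Finset.sum_eq_zero fun i hi => by
      rw [not_not.1 (Nat.find_min hex (Finset.mem_range.1 hi)), sub_self, mul_zero], zero_add,
      ((summable_nat_add_iff p).2 hs).tsum_eq_zero_add, zero_add]
  have h2 : ‖∑' s, w (s + 1 + p) * (u (s + 1 + p) x - u (s + 1 + p) z)‖ ≤ w p / 8 * 2 := by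
    refine tsum_of_norm_bounded (hasSum_geometric_two.mul_left (w p / 8)) fun s => ?_
    have h3 := u_bd (s + 1 + p) x
    have h4 := u_bd (s + 1 + p) z
    rw [norm_mul, Real.norm_of_nonneg (w_pos _).le, Real.norm_eq_abs]
    refine (mul_le_mul_of_nonneg_left (abs_le.2 ⟨by linarith, by linarith⟩) (w_pos _).le).trans
      ((w_le _ ((p + 2) ^ 2 + 3) s (by nlinarith)).trans_eq ?_)
    rw [w, pow_add]; ring
  have h3 : (1 : ℝ) ≤ |(u p x : ℝ) - u p z| := by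
    exact_mod_cast Int.one_le_abs (sub_ne_zero.2 (Nat.find_spec hex))
  have h4 : w P ≤ w p := pow_le_pow_of_le_one (by norm_num) (by norm_num)
    (Nat.pow_le_pow_left (by have := Nat.find_min' hex h; omega) 2)
  have h5 := abs_sub (f x - f z) (∑' s, w (s + 1 + p) * (u (s + 1 + p) x - u (s + 1 + p) z))
  rw [h1, add_sub_cancel_right, ← h1, abs_mul, abs_of_pos (w_pos p)] at h5
  rw [Real.norm_eq_abs] at h2
  nlinarith [w_pos p]

theorem two_floor (a : ℝ) : 2 * ⌊a⌋ ≤ ⌊2 * a⌋ ∧ ⌊2 * a⌋ < 2 * ⌊a⌋ + 2 :=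
  ⟨Int.le_floor.2 (by push_cast; linarith [Int.floor_le a]),
    Int.floor_lt.2 (by push_cast; linarith [Int.lt_floor_add_one a])⟩

theorem inj : InjOn f (Ioo 0 2) := fun x hx z hz h => by
  have h1 : ∀ p, u p x = u p z := fun p => by
    by_contra hp
    have := sep hp
    rw [h, sub_self, abs_zero] at this
    linarith [w_pos p]
  have h2 : ∀ p : ℕ, ⌊2 ^ p * x⌋ % 2 = ⌊2 ^ p * z⌋ % 2 := fun p => by
    have := h1 p
    rw [u, u] at this
    omega
  have h3 : ∀ p : ℕ, ⌊2 ^ p * x⌋ = ⌊2 ^ p * z⌋ := fun p => by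
    induction p with
    | zero =>
      have := h2 0
      simp only [pow_zero, one_mul] at this ⊢
      have a1 : 0 ≤ ⌊x⌋ := Int.floor_nonneg.2 hx.1.le
      have a2 : 0 ≤ ⌊z⌋ := Int.floor_nonneg.2 hz.1.le
      have a3 : ⌊x⌋ < 2 := Int.floor_lt.2 (by exact_mod_cast hx.2)
      have a4 : ⌊z⌋ < 2 := Int.floor_lt.2 (by exact_mod_cast hz.2)
      omega
    | succ p ih =>
      have a1 := two_floor (2 ^ p * x)
      have a2 := two_floor (2 ^ p * z)
      have a3 := h2 (p + 1)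
      rw [pow_succ', mul_assoc, mul_assoc] at a3 ⊢
      omega
  by_contra hne
  obtain ⟨p, hp⟩ := pow_unbounded_of_one_lt (1 / |x - z|) (show (1 : ℝ) < 2 by norm_num)
  have h4 := Int.abs_sub_lt_one_of_floor_eq_floor (h3 p)
  rw [← mul_sub, abs_mul, abs_of_pos (by positivity)] at h4
  rw [div_lt_iff₀ (abs_pos.2 (sub_ne_zero.2 hne))] at hp
  linarith

theorem meas : Measurable f := by
  refine (measurable_of_tendsto_metrizable (f := fun n x => ∑ p ∈ Finset.range n, w p * u p x)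
    (fun n => Finset.measurable_sum _ fun p _ => Measurable.const_mul ?_ _)
    (tendsto_pi_nhds.2 fun x => (sm x).hasSum.tendsto_sum_nat)).const_add _
  exact (Measurable.of_discrete (f := fun n : ℤ × ℤ => ((2 * (n.1 % 2 ^ p) + n.2 % 2 : ℤ) : ℝ))).comp
    ((Int.measurable_floor.comp (measurable_id.const_mul (2 ^ m p * 2 ^ p))).prodMk
      (Int.measurable_floor.comp (measurable_id.const_mul (2 ^ p))))

theorem bad (p : ℕ) (x r : ℝ) (hr : (1 / 2) ^ m p ≤ r) :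
    volume {h ∈ Ioo 0 r | blk p (x + h) = blk p x} ≤ ENNReal.ofReal (3 * r * (1 / 2) ^ p) := by
  set M : ℝ := 2 ^ m p with hM
  set K : ℝ := 2 ^ p with hK
  have hM0 : 0 < M := by positivity
  have hK0 : 0 < K := by positivity
  have h1 : 1 ≤ M * r := by
    rw [one_div, inv_pow, inv_le_iff_one_le_mul₀' hM0] at hr
    exact hr
  have hc := blk_bd p x
  set c := blk p x
  have h2 : {h ∈ Ioo 0 r | blk p (x + h) = c} ⊆ ⋃ q ∈ Finset.Icc ⌊M * x⌋ ⌊M * (x + r)⌋,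
      Ico ((q * K + c) / (M * K) - x) ((q * K + c + 1) / (M * K) - x) := by
    rintro h ⟨⟨h0, h1⟩, h2⟩
    have h3 := Int.emod_add_ediv_mul ⌊M * K * (x + h)⌋ (2 ^ p)
    rw [show ⌊M * K * (x + h)⌋ % 2 ^ p = c from h2] at h3
    set q := ⌊M * K * (x + h)⌋ / 2 ^ p
    have h4 : (c : ℝ) + q * K = ⌊M * K * (x + h)⌋ := by rw [← h3, hK]; push_cast; ring
    have h5 := Int.floor_le (M * K * (x + h))
    have h6 := Int.lt_floor_add_one (M * K * (x + h))
    have h7 : (0 : ℝ) ≤ c := by exact_mod_cast hc.1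
    have h8 : (c : ℝ) + 1 ≤ K := by rw [hK]; exact_mod_cast hc.2
    have h9 := mul_pos hM0 hK0
    simp only [mem_iUnion, Finset.mem_Icc, mem_Ico, exists_prop]
    refine ⟨q, ⟨Int.lt_add_one_iff.1 (Int.floor_lt.2 ?_), Int.le_floor.2 ?_⟩, ?_, ?_⟩
    · push_cast
      refine lt_of_mul_lt_mul_right ?_ hK0.le
      nlinarith [mul_pos h9 h0]
    · refine le_of_mul_le_mul_right ?_ hK0
      nlinarith [mul_pos h9 (sub_pos.2 h1)]
    · rw [sub_le_iff_le_add, div_le_iff₀ h9]; nlinarith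
    · rw [lt_sub_iff_add_lt, lt_div_iff₀ h9]; nlinarith
  refine (measure_mono h2).trans ((measure_biUnion_finset_le _ _).trans ?_)
  have h3 : ∀ q : ℤ, volume (Ico ((q * K + c) / (M * K) - x) ((q * K + c + 1) / (M * K) - x)) =
      ENNReal.ofReal (1 / (M * K)) := fun q => by
    rw [Real.volume_Ico]; congr 1; ring
  simp only [h3, Finset.sum_const, nsmul_eq_mul, Int.card_Icc]
  rw [← ENNReal.ofReal_natCast, ← ENNReal.ofReal_mul (Nat.cast_nonneg _)]
  refine ENNReal.ofReal_le_ofReal ?_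
  have h4 : (((⌊M * (x + r)⌋ + 1 - ⌊M * x⌋).toNat : ℤ) : ℝ) ≤ 3 * (M * r) := by
    have h5 : ⌊M * x⌋ ≤ ⌊M * (x + r)⌋ := Int.floor_le_floor (by nlinarith)
    rw [Int.toNat_of_nonneg (by omega)]
    push_cast
    nlinarith [Int.floor_le (M * (x + r)), Int.lt_floor_add_one (M * x)]
  rw [Int.cast_natCast] at h4
  calc _ ≤ 3 * (M * r) * (1 / (M * K)) := by gcongr
    _ = _ := by rw [one_div (2 : ℝ), inv_pow, ← hK]; field_simp

theorem main (x t : ℝ) : Tendsto (fun r : ℝ =>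
    (volume {h ∈ Ioo 0 r | |(f (x + h) - f x) / h| < t}).toReal / r) (𝓝[>] 0) (𝓝 0) := by
  classical
  rw [Metric.tendsto_nhdsWithin_nhds]
  intro ε hε
  obtain ⟨P, hP⟩ := pow_unbounded_of_one_lt (max t (3 / ε)) (show (1 : ℝ) < 2 by norm_num)
  refine ⟨(1 / 2) ^ m P, by positivity, fun r (hr : 0 < r) hrP => ?_⟩
  rw [Real.dist_eq, sub_zero, abs_of_pos hr] at hrP
  have hex : ∃ p, (1 / 2 : ℝ) ^ m p ≤ r := by
    obtain ⟨n, hn⟩ := exists_pow_lt_of_lt_one hr (show (1 / 2 : ℝ) < 1 by norm_num)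
    exact ⟨n, (pow_le_pow_of_le_one (by norm_num) (by norm_num) (by rw [m]; omega)).trans hn.le⟩
  have h1 : P < Nat.find hex := by
    by_contra hc
    have h2 : m (Nat.find hex) ≤ m P := by
      have := Nat.pow_le_pow_left (show Nat.find hex + 3 ≤ P + 3 by omega) 2
      rw [m, m]; omega
    linarith [Nat.find_spec hex,
      pow_le_pow_of_le_one (show (0 : ℝ) ≤ 1 / 2 by norm_num) (by norm_num) h2]
  obtain ⟨p, hp⟩ : ∃ p, Nat.find hex = p + 1 := ⟨Nat.find hex - 1, by omega⟩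
  have h2 := not_le.1 (Nat.find_min hex (show p < Nat.find hex by omega))
  have h3 := bad (p + 1) x r (hp ▸ Nat.find_spec hex)
  have h4 : (2 : ℝ) ^ P ≤ 2 ^ (p + 1) := pow_le_pow_right₀ (by norm_num) (by omega)
  have h5 : ((1 : ℝ) / 2) ^ (p + 1) * 2 ^ (p + 1) = 1 := by rw [← mul_pow]; simp
  have h6 : {h ∈ Ioo 0 r | |(f (x + h) - f x) / h| < t} ⊆
      {h ∈ Ioo 0 r | blk (p + 1) (x + h) = blk (p + 1) x} := by
    rintro h ⟨hh, h6⟩
    refine ⟨hh, by_contra fun hne => ?_⟩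
    have h7 := sep (x := x + h) (z := x) (P := p + 1) (by rw [u, u]; omega)
    rw [abs_div, abs_of_pos hh.1, div_lt_iff₀ hh.1] at h6
    have h8 : w (p + 1) / 2 = 2 ^ (p + 1) * (1 / 2) ^ m p := by
      rw [w, m, add_assoc _ p 2, pow_add (1 / 2 : ℝ) _ (p + 2), pow_succ (1 / 2 : ℝ) (p + 1)]
      linear_combination (-(1 / 2 : ℝ) ^ (p + 3) ^ 2 / 2) * h5
    have h9 : t * h ≤ 2 ^ (p + 1) * h :=
      mul_le_mul_of_nonneg_right (by linarith [le_max_left t (3 / ε)]) hh.1.le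
    have h10 : (2 : ℝ) ^ (p + 1) * h ≤ 2 ^ (p + 1) * (1 / 2) ^ m p :=
      mul_le_mul_of_nonneg_left (by linarith [hh.2]) (by positivity)
    linarith
  have h7 := ENNReal.toReal_le_of_le_ofReal (by positivity) ((measure_mono h6).trans h3)
  rw [Real.dist_eq, sub_zero, abs_of_nonneg (by positivity), div_lt_iff₀ hr]
  have h8 : 3 / ε < 2 ^ (p + 1) := by linarith [le_max_right t (3 / ε)]
  rw [div_lt_iff₀ hε] at h8
  have h9 : 3 * (1 / 2 : ℝ) ^ (p + 1) < ε := by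
    have := mul_lt_mul_of_pos_left h8 (show (0 : ℝ) < (1 / 2) ^ (p + 1) by positivity)
    rw [← mul_assoc, h5] at this
    linarith
  nlinarith

theorem result : ∃ g : ℝ → ℝ, Measurable g ∧ InjOn g (Ioo 0 2) ∧ MapsTo g (Ioo 0 2) (Ioo 0 1) ∧
    ∀ x ∈ Ioo (0 : ℝ) 2, apLiminf (fun h => |(g (x + h) - g x) / h|) = ⊤ := by
  refine ⟨f, meas, inj, fun x _ => ?_, fun x _ => sSup_eq_top.2 fun b hb => ?_⟩
  · have h1 := tsum_of_norm_bounded (hasSum_geometric_two.mul_left ((1 / 2) ^ 3)) fun p => term p x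
    have h2 : 0 ≤ ∑' p, w p * u p x := tsum_nonneg fun p => mul_nonneg (w_pos p).le (u_bd p x).1
    rw [Real.norm_of_nonneg h2] at h1
    rw [f]
    constructor <;> linarith
  · obtain ⟨t, ht, -⟩ := EReal.lt_iff_exists_real_btwn.1 hb
    exact ⟨t, ⟨t, main x t, rfl⟩, ht⟩

end Pool.Agent.Results.MP_868b62_an.Expand
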